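import Mathlib

/-!
# Veronesean embeddings of the dual polar space of type B_n: definitions

`V F n` is the `(2n+1)`-dimensional space `F × F^n × F^n` with the quadratic form
`q (x₀, x, y) = x₀² + ∑ xᵢ yᵢ` of Witt index `n`.
-/

namespace Pool.Agent.VeronDual

open LinearAlgebra.Projectivization

universe u v

section Space

variable (F : Type*) [Field F] (n : ℕ)

/-- The vector space `V(2n+1, F)`: vectors `(x₀, x, y)` with `x₀ ∈ F` and `x, y ∈ Fⁿ`. -/
def V : Type _ := F × (Fin n → F) × (Fin n → F)

/-- coordinatewise addition -/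
instance : AddCommGroup (V F n) := inferInstanceAs (AddCommGroup (F × (Fin n → F) × (Fin n → F)))

/-- coordinatewise scalar multiplication -/
instance : Module F (V F n) := inferInstanceAs (Module F (F × (Fin n → F) × (Fin n → F)))

instance : Module.Finite F (V F n) :=
  inferInstanceAs (Module.Finite F (F × (Fin n → F) × (Fin n → F)))

theorem finrank_V : Module.finrank F (V F n) = 2 * n + 1 := by
  have h : Module.finrank F (F × (Fin n → F) × (Fin n → F)) = 2 * n + 1 := by
    rw [Module.finrank_prod, Module.finrank_prod, Module.finrank_self, Module.finrank_fin_fun]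
    ring
  exact h

variable {F n}

theorem add_fst (w z : V F n) : (w + z).1 = w.1 + z.1 := rfl

theorem add_x (w z : V F n) (i : Fin n) : (w + z).2.1 i = w.2.1 i + z.2.1 i := rfl

theorem add_y (w z : V F n) (i : Fin n) : (w + z).2.2 i = w.2.2 i + z.2.2 i := rfl

theorem smul_fst (c : F) (w : V F n) : (c • w).1 = c * w.1 := rfl

theorem smul_x (c : F) (w : V F n) (i : Fin n) : (c • w).2.1 i = c * w.2.1 i := rfl

theorem smul_y (c : F) (w : V F n) (i : Fin n) : (c • w).2.2 i = c * w.2.2 i := rfl

theorem zero_fst : (0 : V F n).1 = 0 := rfl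

theorem zero_x (i : Fin n) : (0 : V F n).2.1 i = 0 := rfl

theorem zero_y (i : Fin n) : (0 : V F n).2.2 i = 0 := rfl

omit [Field F] in
theorem V.ext {w z : V F n} (h0 : w.1 = z.1) (hx : ∀ i, w.2.1 i = z.2.1 i)
    (hy : ∀ i, w.2.2 i = z.2.2 i) : w = z :=
  Prod.ext h0 (Prod.ext (funext hx) (funext hy))

/-- The non-singular quadratic form `x₀² + ∑ xᵢ yᵢ` of Witt index `n` on `V(2n+1, F)`. -/
def q (w : V F n) : F := w.1 ^ 2 + ∑ i, w.2.1 i * w.2.2 i

/-- The bilinear form of `q`. -/
def polar (w z : V F n) : F := q (w + z) - q w - q z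

/-- Totally singular subspaces. -/
def TotSing (X : Submodule F (V F n)) : Prop := ∀ w ∈ X, q w = 0

variable (F n)

/-- The points of the dual polar space: the totally singular subspaces of dimension `n`. -/
def Pt : Type _ := {Z : Submodule F (V F n) // TotSing Z ∧ Module.finrank F Z = n}

variable {F n}

/-- `X` is a totally singular subspace of dimension `n - 1`. -/
def IsCentre (X : Submodule F (V F n)) : Prop :=
  TotSing X ∧ Module.finrank F X + 1 = n

/-- The line `l_X` of the dual polar space: all points `Z` with `X ⊆ Z ⊆ X^⊥`. -/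
def line (X : Submodule F (V F n)) : Set (Pt F n) :=
  {Z | X ≤ Z.1 ∧ ∀ z ∈ Z.1, ∀ x ∈ X, polar x z = 0}

/-- The condition `Z ⊆ X^⊥` in the definition of a line is automatic. -/
theorem mem_line_iff (X : Submodule F (V F n)) (Z : Pt F n) : Z ∈ line X ↔ X ≤ Z.1 := by
  constructor
  · exact fun h => h.1
  · intro h
    refine ⟨h, fun z hz x hx => ?_⟩
    have h1 := Z.2.1 _ (Z.1.add_mem (h hx) hz)
    have h2 := Z.2.1 _ (h hx)
    have h3 := Z.2.1 _ hz
    simp [polar, h1, h2, h3]

end Space

section Embeddings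

variable {F : Type*} [Field F] {n : ℕ}

/-- A set of points of `PG(W)` is a non-singular conic: in suitable coordinates of a plane it is
the set of the points `(s², s t, t²)`. -/
def IsConic {W : Type*} [AddCommGroup W] [Module F W] (S : Set (ℙ F W)) : Prop :=
  ∃ e : Fin 3 → W, LinearIndependent F e ∧
    S = {x | ∃ s t : F, (s ≠ 0 ∨ t ≠ 0) ∧
      x.submodule = Submodule.span F {s ^ 2 • e 0 + (s * t) • e 1 + t ^ 2 • e 2}}

/-- Veronesean embeddings of the dual polar space in `PG(W)`. -/
structure IsVerEmb {W : Type*} [AddCommGroup W] [Module F W] (ε : Pt F n → ℙ F W) : Prop where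
  /-- `ε` is injective -/
  injective : Function.Injective ε
  /-- each line goes onto a non-singular conic -/
  conic : ∀ X : Submodule F (V F n), IsCentre X → IsConic (ε '' line X)
  /-- `ε(p) ∩ ⟨ε(l)⟩ = 0` when `p` is not on `l` -/
  separated : ∀ X : Submodule F (V F n), IsCentre X → ∀ p ∉ line X,
    (ε p).submodule ⊓ (⨆ z ∈ line X, (ε z).submodule) = ⊥
  /-- the image spans -/
  spans : (⨆ z, (ε z).submodule) = ⊤

/-- `ε₂` is a quotient of `ε₁`: there is a morphism `ε₁ → ε₂`, that is, a map `f` that is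
semilinear with respect to an automorphism `σ` of `F` and maps each nonzero vector of the point
`ε₁(z)` to a nonzero vector of the point `ε₂(z)`. -/
def IsQuotient {W₁ W₂ : Type*} [AddCommGroup W₁] [Module F W₁] [AddCommGroup W₂] [Module F W₂]
    (ε₁ : Pt F n → ℙ F W₁) (ε₂ : Pt F n → ℙ F W₂) : Prop :=
  ∃ (σ : F ≃+* F) (f : W₁ → W₂), (∀ w w', f (w + w') = f w + f w') ∧
    (∀ (c : F) (w : W₁), f (c • w) = σ c • f w) ∧
    ∀ (z : Pt F n), ∀ w ∈ (ε₁ z).submodule, w ≠ 0 → f w ≠ 0 ∧ f w ∈ (ε₂ z).submodule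

/-- `ε` is an absolutely universal veronesean embedding: every veronesean embedding in `PG(W')`,
`W'` in the universe `Type v`, is a quotient of it. -/
def IsAbsUniversal {W : Type u} [AddCommGroup W] [Module F W] (ε : Pt F n → ℙ F W) : Prop :=
  IsVerEmb ε ∧ ∀ (W' : Type v) [AddCommGroup W'] [Module F W'] (ε' : Pt F n → ℙ F W'),
    IsVerEmb ε' → IsQuotient ε ε'

/-- The dual polar space has an absolutely universal veronesean embedding. -/
def HasAbsUniversal (F : Type*) [Field F] (n : ℕ) : Prop :=
  ∃ (W : Type u) (_ : AddCommGroup W) (_ : Module F W) (ε : Pt F n → ℙ F W),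
    IsAbsUniversal.{u, v} ε

/-- Two embeddings are quotients of a common veronesean embedding. -/
def HaveCommonCover {W₁ W₂ : Type*} [AddCommGroup W₁] [Module F W₁] [AddCommGroup W₂]
    [Module F W₂] (ε₁ : Pt F n → ℙ F W₁) (ε₂ : Pt F n → ℙ F W₂) : Prop :=
  ∃ (W : Type u) (_ : AddCommGroup W) (_ : Module F W) (ε : Pt F n → ℙ F W),
    IsVerEmb ε ∧ IsQuotient ε ε₁ ∧ IsQuotient ε ε₂

end Embeddings

end Pool.Agent.VeronDual
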