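import Mathlib

/-!
# Data for the exotic veronesean embedding of the dual polar space of type B_2 over F_3

All tables are packed in natural numbers and read digit by digit.
-/

namespace Pool.Agent.VeronDual.F3

/-- incidences: six bits for the `k`-th point on the `j`-th line at place `4 j + k` -/
def dOn : ℕ := 0x89b54c9993cc91748c75848985a3c97d65499dc5438e048395e3c381b3887194487975089d838b8da50b95644b8a144299d50291f38295d6c68df6469e15c689e60591c6859a05859e64079644c78e23478604ca7de40a75c34a6da4016584c15d63415544c44914043ce34430b2802481c01851000c2040

/-- digits of the singular vectors, two bits each, place `5 j + r` -/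
def dX : ℕ := 0xaa4694a5991661992549124a599525255558568561485685614869194611a916409194950148110401090140109014010100

/-- digits of the first basis vectors of the totally singular planes -/
def dU : ℕ := 0x9246912529526a9165498644966649aa4591a5994a619aa52559129996a41a4a5092a925594664a5a91a1a44909268581240

/-- digits of the second basis vectors -/
def dW : ℕ := 0x255858548555685a14a521525616652955599495496158655565199856541649505069556541666559161944505258541140

/-- the vectors of the embedding A in dimension 7 -/
def dTA : ℕ := 0xa102680165950a9650555625a685a245a2906111202899815806228125aa58a1a958a8858a4888812900815425444589129aa9045a0090001000282040004000a80100010001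

/-- the signs of the relations on the lines -/
def dSA : ℕ := 0x55555555555555555555555555555555555555555555555555555555555555555555555555555555

/-- functionals vanishing on the planes of the conics -/
def dNA : ℕ := 0x400040204800664220442060401540a84140404059411848a0610010420848a0400018408842a04100584148440044800640a8415048406a4124406041801810081040128019100011401000011020101012801841284490414018401440a061801840144010450042401840204140424220444061000140044010410049400042004a80664040414045806a41284460428018402440801140184044401010000642004400040006450001000100014028101012401640181080114018422448a050801644145090114016404840004640454408501010001240444000404041404841104040624018408040401a442050400400014004400041801840204100480048040004000400044000400004000440004000400040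

/-- the points that go to the standard basis vectors -/
def dIA : ℕ := 0x81c5102040

/-- the vectors of the embedding B in dimension 6 -/
def dTB : ℕ := 0x155214814185219559992a2a620441aa2490a8a9aa844565645529a0466925262510489609484a49951010a924922210400282100040016010004001

/-- the signs of the relations on the lines -/
def dSB : ℕ := 0xa55555a5555555555555a55555695555555555556955556955695555695555555555556955555569

/-- functionals vanishing on the planes of the conics -/
def dNB : ℕ := 0x42512504242416800146116000640214101a40210106941512604042410505140512904044510001840215100644015800140211404246014100642610106641011a04040210904240210604250204100642810204241412204a41811a04240204201442005100640204001810504201810204101914101200544514801541a12404242010a05540212204244110201140212106240410601140210a011402100019420124040110040004400010004400100040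

/-- the points that go to the standard basis vectors -/
def dIB : ℕ := 0x1c5102040

/-- the `i`-th two-bit digit -/
def dg (D i : ℕ) : ℕ := (D >>> (2 * i)) % 4

/-- the `k`-th point on the line `j` -/
def onN (j k : ℕ) : ℕ := (dOn >>> (6 * (4 * j + k))) % 64

/-- digits of the `j`-th singular vector -/
def xN (j r : ℕ) : ℕ := dg dX (5 * j + r)

/-- digits of the first basis vector of the `i`-th plane -/
def uN (i r : ℕ) : ℕ := dg dU (5 * i + r)

/-- digits of the second basis vector of the `i`-th plane -/
def wN (i r : ℕ) : ℕ := dg dW (5 * i + r)

/-- entries of an embedding table -/
def tN (T d i r : ℕ) : ℕ := dg T (d * i + r)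

/-- signs -/
def sN (S j k : ℕ) : ℕ := dg S (4 * j + k)

/-- functionals; `c` of them on each line -/
def nN (N d c j a r : ℕ) : ℕ := dg N ((c * j + a) * d + r)

/-- incidence -/
def incN (i j : ℕ) : Bool := onN j 0 == i || (onN j 1 == i || (onN j 2 == i || onN j 3 == i))

/-- bounded quantifier -/
def allb (n : ℕ) (p : ℕ → Bool) : Bool := (List.range n).all p

/-- bounded quantifier -/
def anyb (n : ℕ) (p : ℕ → Bool) : Bool := (List.range n).any p

theorem allb_iff {n : ℕ} {p : ℕ → Bool} : allb n p = true ↔ ∀ i < n, p i = true := by
  simp [allb]

theorem anyb_iff {n : ℕ} {p : ℕ → Bool} : anyb n p = true ↔ ∃ i < n, p i = true := by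
  simp [anyb]

/-- sum of the first `n` values -/
def sumb : ℕ → (ℕ → ℕ) → ℕ
  | 0, _ => 0
  | n + 1, f => sumb n f + f n

theorem sumb_eq (n : ℕ) (f : ℕ → ℕ) : sumb n f = ∑ i ∈ Finset.range n, f i := by
  induction n with
  | zero => rfl
  | succ n ih => rw [Finset.sum_range_succ, ← ih]; rfl

/-- the quadratic form on digits -/
def qN (f : ℕ → ℕ) : ℕ := f 0 ^ 2 + (f 1 * f 3 + f 2 * f 4)

/-- the points on a line are four different ones of the forty -/
def chkOn : Bool :=
  allb 40 fun j => allb 4 fun k => Nat.blt (onN j k) 40 && allb 4 fun l => k == l || !(onN j k == onN j l)

/-- the planes are totally singular with independent basis vectors -/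
def chkPl : Bool :=
  allb 40 fun i => allb 3 fun a => allb 3 fun b =>
    qN (fun r => a * uN i r + b * wN i r) % 3 == 0 &&
      ((a == 0 && b == 0) || anyb 5 fun r => !((a * uN i r + b * wN i r) % 3 == 0))

/-- incidence is membership -/
def chkInc : Bool :=
  allb 40 fun i => allb 40 fun j =>
    (anyb 3 fun a => anyb 3 fun b => allb 5 fun r => (a * uN i r + b * wN i r) % 3 == xN j r % 3) ==
      incN i j

/-- every nonzero singular vector is a multiple of one of the forty -/
def chkSing : Bool :=
  allb 3 fun a => allb 3 fun b => allb 3 fun c => allb 3 fun d => allb 3 fun e =>
    !((a ^ 2 + (b * d + c * e)) % 3 == 0) || (a + b + c + d + e == 0 ||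
      anyb 40 fun j => anyb 3 fun s => s * xN j 0 % 3 == a && (s * xN j 1 % 3 == b &&
        (s * xN j 2 % 3 == c && (s * xN j 3 % 3 == d && s * xN j 4 % 3 == e))))

/-- the forty vectors are singular and nonzero -/
def chkX : Bool :=
  allb 40 fun j => qN (xN j) % 3 == 0 && anyb 5 fun r => !(xN j r % 3 == 0)

/-- two orthogonal singular vectors lie in a common plane -/
def chkPair : Bool :=
  allb 40 fun j => allb 40 fun k =>
    !(qN (fun r => xN j r + xN k r) % 3 == 0) || anyb 40 fun i => incN i j && incN i k

/-- different planes are separated by one of the vectors -/
def chkSepPl : Bool :=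
  allb 40 fun i => allb 40 fun k => i == k || anyb 40 fun j => incN i j && !incN k j

/-- check of an embedding table in dimension `d` with `c` functionals on each line -/
def chkTab (T S N d c : ℕ) : Bool :=
  (allb 40 fun j => (allb d fun r => (sumb 4 fun k => sN S j k * tN T d (onN j k) r) % 3 == 0) &&
    ((allb 4 fun k => !(sN S j k % 3 == 0)) &&
    ((allb 3 fun x => allb 3 fun y => allb 3 fun z => (x == 0 && (y == 0 && z == 0)) ||
      anyb d fun r => !((x * tN T d (onN j 0) r + y * tN T d (onN j 1) r +
        z * tN T d (onN j 2) r) % 3 == 0)) &&
    ((allb c fun a => allb 4 fun k =>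
      (sumb d fun r => nN N d c j a r * tN T d (onN j k) r) % 3 == 0) &&
    (allb 40 fun i => incN i j ||
      anyb c fun a => !((sumb d fun r => nN N d c j a r * tN T d i r) % 3 == 0))))))

/-- the unit vectors are in the table -/
def chkUnit (T I d : ℕ) : Bool :=
  allb d fun s => Nat.blt ((I >>> (6 * s)) % 64) 40 &&
    allb d fun r => tN T d ((I >>> (6 * s)) % 64) r == if s == r then 1 else 0

theorem chkOn_true : chkOn = true := by decide +kernel
theorem chkPl_true : chkPl = true := by decide +kernel
theorem chkInc_true : chkInc = true := by decide +kernel
theorem chkSing_true : chkSing = true := by decide +kernel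
theorem chkX_true : chkX = true := by decide +kernel
theorem chkPair_true : chkPair = true := by decide +kernel
theorem chkSepPl_true : chkSepPl = true := by decide +kernel
theorem chkTabA_true : chkTab dTA dSA dNA 7 4 = true := by decide +kernel
theorem chkTabB_true : chkTab dTB dSB dNB 6 3 = true := by decide +kernel
theorem chkUnitA_true : chkUnit dTA dIA 7 = true := by decide +kernel
theorem chkUnitB_true : chkUnit dTB dIB 6 = true := by decide +kernel

end Pool.Agent.VeronDual.F3
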