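import Mathlib
import Pool.Agent.VeronDual.Defs
import Pool.Agent.VeronDual.F3Data

/-!
# The forty points and forty lines of the dual polar space of type B_2 over F_3
-/

namespace Pool.Agent.VeronDual.F3

/-- the field -/
abbrev K : Type := ZMod 3

/-- the space -/
abbrev E : Type := V K 2

/-- vectors from digits -/
def vec5 (f : ℕ → ℕ) : E := ((f 0 : K), ![(f 1 : K), (f 2 : K)], ![(f 3 : K), (f 4 : K)])

theorem natCast_eq_iff {a b : ℕ} : (a : K) = (b : K) ↔ a % 3 = b % 3 :=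
  ZMod.natCast_eq_natCast_iff' a b 3

theorem natCast_eq_zero {a : ℕ} : (a : K) = 0 ↔ a % 3 = 0 := by
  have h := natCast_eq_iff (a := a) (b := 0)
  simpa using h

theorem exists_nat (x : K) : ∃ a : ℕ, a < 3 ∧ (a : K) = x :=
  ⟨x.val, ZMod.val_lt x, ZMod.natCast_zmod_val x⟩

theorem q_vec5 (f : ℕ → ℕ) : q (vec5 f) = ((qN f : ℕ) : K) := by
  simp [q, vec5, qN, Fin.sum_univ_two]

theorem vec5_ext {f g : ℕ → ℕ} : vec5 f = vec5 g ↔ ∀ r < 5, f r % 3 = g r % 3 := by
  constructor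
  · intro h
    have h0 := congrArg (fun v : E => v.1) h
    have h1 := congrArg (fun v : E => v.2.1 0) h
    have h2 := congrArg (fun v : E => v.2.1 1) h
    have h3 := congrArg (fun v : E => v.2.2 0) h
    have h4 := congrArg (fun v : E => v.2.2 1) h
    simp only [vec5, Matrix.cons_val_zero, Matrix.cons_val_one, natCast_eq_iff] at h0 h1 h2 h3 h4
    intro r hr
    interval_cases r
    · exact h0
    · exact h1
    · exact h2
    · exact h3
    · exact h4
  · intro h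
    simp only [vec5, natCast_eq_iff.2 (h 0 (by norm_num)), natCast_eq_iff.2 (h 1 (by norm_num)),
      natCast_eq_iff.2 (h 2 (by norm_num)), natCast_eq_iff.2 (h 3 (by norm_num)),
      natCast_eq_iff.2 (h 4 (by norm_num))]

theorem comb_vec5 (a b : ℕ) (f g : ℕ → ℕ) :
    (a : K) • vec5 f + (b : K) • vec5 g = vec5 (fun r => a * f r + b * g r) := by
  refine V.ext ?_ (fun i => ?_) (fun i => ?_)
  · rw [add_fst, smul_fst, smul_fst]
    simp [vec5]
  · rw [add_x, smul_x, smul_x]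
    fin_cases i <;> simp [vec5]
  · rw [add_y, smul_y, smul_y]
    fin_cases i <;> simp [vec5]

theorem vec5_zero {f : ℕ → ℕ} : vec5 f = 0 ↔ ∀ r < 5, f r % 3 = 0 := by
  have h : (0 : E) = vec5 (fun _ => 0) := by
    refine V.ext ?_ (fun i => ?_) (fun i => ?_)
    · rw [zero_fst]
      simp [vec5]
    · rw [zero_x]
      fin_cases i <;> simp [vec5]
    · rw [zero_y]
      fin_cases i <;> simp [vec5]
  rw [h, vec5_ext]

theorem vec5_surj (v : E) : ∃ a < 3, ∃ b < 3, ∃ c < 3, ∃ d < 3, ∃ e < 3,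
    v = vec5 (fun r => match r with | 0 => a | 1 => b | 2 => c | 3 => d | _ => e) := by
  obtain ⟨a, ha, ha'⟩ := exists_nat v.1
  obtain ⟨b, hb, hb'⟩ := exists_nat (v.2.1 0)
  obtain ⟨c, hc, hc'⟩ := exists_nat (v.2.1 1)
  obtain ⟨d, hd, hd'⟩ := exists_nat (v.2.2 0)
  obtain ⟨e, he, he'⟩ := exists_nat (v.2.2 1)
  refine ⟨a, ha, b, hb, c, hc, d, hd, e, he, ?_⟩
  refine V.ext ?_ (fun i => ?_) (fun i => ?_)
  · simp [vec5, ha']
  · fin_cases i <;> simp [vec5, hb', hc']
  · fin_cases i <;> simp [vec5, hd', he']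

/-- the singular vectors -/
def xv (j : ℕ) : E := vec5 (xN j)

/-- the planes -/
def pl (i : ℕ) : Submodule K E := Submodule.span K {vec5 (uN i), vec5 (wN i)}

theorem mem_pl {i : ℕ} {v : E} :
    v ∈ pl i ↔ ∃ a < 3, ∃ b < 3, vec5 (fun r => a * uN i r + b * wN i r) = v := by
  rw [pl, Submodule.mem_span_pair]
  constructor
  · rintro ⟨a, b, h⟩
    obtain ⟨a', ha, rfl⟩ := exists_nat a
    obtain ⟨b', hb, rfl⟩ := exists_nat b
    exact ⟨a', ha, b', hb, by rw [← comb_vec5]; exact h⟩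
  · rintro ⟨a, _, b, _, h⟩
    exact ⟨a, b, by rw [comb_vec5]; exact h⟩

theorem pl_totSing {i : ℕ} (hi : i < 40) : TotSing (pl i) := by
  intro v hv
  obtain ⟨a, ha, b, hb, rfl⟩ := mem_pl.1 hv
  have h := chkPl_true
  simp only [chkPl, allb_iff, Bool.and_eq_true, beq_iff_eq] at h
  rw [q_vec5, natCast_eq_zero]
  exact (h i hi a ha b hb).1

theorem pl_finrank {i : ℕ} (hi : i < 40) : Module.finrank K (pl i) = 2 := by
  have h := chkPl_true
  simp only [chkPl, allb_iff, anyb_iff, Bool.and_eq_true, beq_iff_eq, Bool.or_eq_true,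
    Bool.not_eq_true', beq_eq_false_iff_ne] at h
  have hind : LinearIndependent K ![vec5 (uN i), vec5 (wN i)] := by
    rw [LinearIndependent.pair_iff]
    intro a b hab
    obtain ⟨a', ha, rfl⟩ := exists_nat a
    obtain ⟨b', hb, rfl⟩ := exists_nat b
    rw [comb_vec5, vec5_zero] at hab
    rcases (h i hi a' ha b' hb).2 with h1 | ⟨r, hr, h1⟩
    · exact ⟨by simp [h1.1], by simp [h1.2]⟩
    · exact absurd (hab r hr) h1
  have h2 := finrank_span_eq_card hind
  have h3 : Set.range ![vec5 (uN i), vec5 (wN i)] = {vec5 (uN i), vec5 (wN i)} := by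
    ext z
    simp [or_comm]
  rw [h3] at h2
  rw [pl]
  simpa using h2

theorem mem_pl_xv {i j : ℕ} (hi : i < 40) (hj : j < 40) : xv j ∈ pl i ↔ incN i j = true := by
  have h := chkInc_true
  simp only [chkInc, allb_iff, beq_iff_eq] at h
  rw [← h i hi j hj, mem_pl]
  simp only [anyb_iff, allb_iff, beq_iff_eq, xv, vec5_ext]

theorem xv_q {j : ℕ} (hj : j < 40) : q (xv j) = 0 := by
  have h := chkX_true
  simp only [chkX, allb_iff, Bool.and_eq_true, beq_iff_eq] at h
  rw [xv, q_vec5, natCast_eq_zero]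
  exact (h j hj).1

theorem xv_ne {j : ℕ} (hj : j < 40) : xv j ≠ 0 := by
  have h := chkX_true
  simp only [chkX, allb_iff, anyb_iff, Bool.and_eq_true, beq_iff_eq, Bool.not_eq_true',
    beq_eq_false_iff_ne] at h
  obtain ⟨r, hr, h1⟩ := (h j hj).2
  rw [xv, Ne, vec5_zero]
  exact fun h2 => h1 (h2 r hr)

theorem sing_eq {v : E} (hv : v ≠ 0) (hq : q v = 0) : ∃ j < 40, ∃ s : K, v = s • xv j := by
  obtain ⟨a, ha, b, hb, c, hc, d, hd, e, he, rfl⟩ := vec5_surj v
  have h := chkSing_true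
  simp only [chkSing, allb_iff, anyb_iff, Bool.and_eq_true, beq_iff_eq, Bool.or_eq_true,
    Bool.not_eq_true', beq_eq_false_iff_ne] at h
  rw [q_vec5, natCast_eq_zero] at hq
  have hq' : (a ^ 2 + (b * d + c * e)) % 3 = 0 := hq
  rcases h a ha b hb c hc d hd e he with h1 | h1 | ⟨j, hj, s, hs, h0, h1, h2, h3, h4⟩
  · exact absurd hq' h1
  · exfalso
    apply hv
    rw [vec5_zero]
    intro r hr
    obtain ⟨ha0, hb0, hc0, hd0, he0⟩ : a = 0 ∧ b = 0 ∧ c = 0 ∧ d = 0 ∧ e = 0 := by omega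
    subst ha0 hb0 hc0 hd0 he0
    interval_cases r <;> rfl
  · refine ⟨j, hj, (s : K), ?_⟩
    have h5 := comb_vec5 s 0 (xN j) (xN j)
    rw [Nat.cast_zero, zero_smul, add_zero] at h5
    rw [xv, h5, vec5_ext]
    intro r hr
    interval_cases r
    · simpa [Nat.mod_eq_of_lt ha] using h0.symm
    · simpa [Nat.mod_eq_of_lt hb] using h1.symm
    · simpa [Nat.mod_eq_of_lt hc] using h2.symm
    · simpa [Nat.mod_eq_of_lt hd] using h3.symm
    · simpa [Nat.mod_eq_of_lt he] using h4.symm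

theorem pair_plane {j k : ℕ} (hj : j < 40) (hk : k < 40) (h0 : q (xv j + xv k) = 0) :
    ∃ i < 40, xv j ∈ pl i ∧ xv k ∈ pl i := by
  have h := chkPair_true
  simp only [chkPair, allb_iff, anyb_iff, Bool.and_eq_true, Bool.or_eq_true,
    Bool.not_eq_true', beq_eq_false_iff_ne] at h
  have h5 := comb_vec5 1 1 (xN j) (xN k)
  simp only [Nat.cast_one, one_smul, one_mul] at h5
  rw [xv, xv, h5, q_vec5, natCast_eq_zero] at h0
  rcases h j hj k hk with h1 | ⟨i, hi, h1, h2⟩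
  · exact absurd h0 h1
  · exact ⟨i, hi, (mem_pl_xv hi hj).2 h1, (mem_pl_xv hi hk).2 h2⟩

/-- the points of the geometry -/
def P (i : Fin 40) : Pt K 2 := ⟨pl i, pl_totSing i.2, pl_finrank i.2⟩

theorem P_surj (Z : Pt K 2) : ∃ i, P i = Z := by
  obtain ⟨Z, hZ, hfr⟩ := Z
  let b := Module.finBasisOfFinrankEq K Z hfr
  have hne : ∀ i, (b i : E) ≠ 0 := fun i h => b.ne_zero i (Subtype.ext h)
  obtain ⟨j, hj, s, hs⟩ := sing_eq (hne 0) (hZ _ (b 0).2)
  obtain ⟨k, hk, t, ht⟩ := sing_eq (hne 1) (hZ _ (b 1).2)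
  have hs0 : s ≠ 0 := by
    rintro rfl
    exact hne 0 (by rw [hs, zero_smul])
  have ht0 : t ≠ 0 := by
    rintro rfl
    exact hne 1 (by rw [ht, zero_smul])
  have hjZ : xv j ∈ Z := by
    have h1 : xv j = s⁻¹ • (b 0 : E) := by rw [hs, smul_smul, inv_mul_cancel₀ hs0, one_smul]
    rw [h1]
    exact Z.smul_mem _ (b 0).2
  have hkZ : xv k ∈ Z := by
    have h1 : xv k = t⁻¹ • (b 1 : E) := by rw [ht, smul_smul, inv_mul_cancel₀ ht0, one_smul]
    rw [h1]
    exact Z.smul_mem _ (b 1).2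
  obtain ⟨i, hi, h1, h2⟩ := pair_plane hj hk (hZ _ (Z.add_mem hjZ hkZ))
  refine ⟨⟨i, hi⟩, Subtype.ext ?_⟩
  symm
  refine Submodule.eq_of_le_of_finrank_eq ?_ (hfr.trans (pl_finrank hi).symm)
  intro z hz
  have h3 := b.sum_repr ⟨z, hz⟩
  have h4 : z = (b.repr ⟨z, hz⟩ 0) • (b 0 : E) + (b.repr ⟨z, hz⟩ 1) • (b 1 : E) := by
    have h5 := congrArg (Subtype.val) h3
    rw [Fin.sum_univ_two] at h5
    simpa using h5.symm
  rw [h4, hs, ht]
  exact (pl i).add_mem ((pl i).smul_mem _ ((pl i).smul_mem _ h1))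
    ((pl i).smul_mem _ ((pl i).smul_mem _ h2))

theorem P_inj : Function.Injective P := by
  intro i k h
  by_contra hne
  have h1 := chkSepPl_true
  simp only [chkSepPl, allb_iff, anyb_iff, Bool.and_eq_true, beq_iff_eq, Bool.or_eq_true,
    Bool.not_eq_true'] at h1
  have h2 : pl i = pl k := congrArg Subtype.val h
  rcases h1 i i.2 k k.2 with h3 | ⟨j, hj, h3, h4⟩
  · exact hne (Fin.ext h3)
  · have h5 := (mem_pl_xv i.2 hj).2 h3
    rw [h2, mem_pl_xv k.2 hj, h4] at h5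
    exact absurd h5 (by simp)

/-- the `k`-th point on the line `j` -/
def on (j : Fin 40) (k : Fin 4) : Fin 40 := ⟨onN j k % 40, Nat.mod_lt _ (by norm_num)⟩

theorem onN_lt {j k : ℕ} (hj : j < 40) (hk : k < 4) : onN j k < 40 := by
  have h := chkOn_true
  simp only [chkOn, allb_iff, Bool.and_eq_true] at h
  have h1 := (h j hj k hk).1
  exact Eq.mp Nat.blt_eq h1

theorem on_val (j : Fin 40) (k : Fin 4) : (on j k : ℕ) = onN j k :=
  Nat.mod_eq_of_lt (onN_lt j.2 k.2)

theorem on_inj (j : Fin 40) : Function.Injective (on j) := by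
  intro k l h
  by_contra hne
  have h0 := chkOn_true
  simp only [chkOn, allb_iff, Bool.and_eq_true, Bool.or_eq_true, beq_iff_eq,
    Bool.not_eq_true', beq_eq_false_iff_ne] at h0
  have h1 := (h0 j j.2 k k.2).2 l l.2
  have h2 : onN j k = onN j l := by
    rw [← on_val, ← on_val, h]
  rcases h1 with h1 | h1
  · exact hne (Fin.ext h1)
  · exact h1 h2

theorem incN_iff (i j : Fin 40) : incN i j = true ↔ ∃ k, on j k = i := by
  simp only [incN, Bool.or_eq_true, beq_iff_eq]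
  constructor
  · rintro (h | h | h | h)
    · exact ⟨0, Fin.ext (by rw [on_val]; exact h)⟩
    · exact ⟨1, Fin.ext (by rw [on_val]; exact h)⟩
    · exact ⟨2, Fin.ext (by rw [on_val]; exact h)⟩
    · exact ⟨3, Fin.ext (by rw [on_val]; exact h)⟩
  · rintro ⟨k, rfl⟩
    rw [on_val]
    fin_cases k
    · exact Or.inl rfl
    · exact Or.inr (Or.inl rfl)
    · exact Or.inr (Or.inr (Or.inl rfl))
    · exact Or.inr (Or.inr (Or.inr rfl))

/-- the centre of the line `j` -/
def cen (j : Fin 40) : Submodule K E := Submodule.span K {xv j}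

theorem cen_isCentre (j : Fin 40) : IsCentre (cen j) := by
  refine ⟨?_, ?_⟩
  · intro w hw
    obtain ⟨a, rfl⟩ := Submodule.mem_span_singleton.1 hw
    have h1 : q (a • xv j) = a ^ 2 * q (xv j) := by
      simp only [q, smul_fst, smul_x, smul_y, Fin.sum_univ_two]
      ring
    rw [h1, xv_q j.2, mul_zero]
  · rw [cen, finrank_span_singleton (xv_ne j.2)]

theorem centre_eq {X : Submodule K E} (hX : IsCentre X) : ∃ j, X = cen j := by
  obtain ⟨hs, hf⟩ := hX
  have hf1 : Module.finrank K X = 1 := Nat.add_right_cancel (m := 1) hf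
  obtain ⟨v, hv0, hv⟩ := finrank_eq_one_iff'.1 hf1
  have hv0' : (v : E) ≠ 0 := fun h => hv0 (Subtype.ext h)
  obtain ⟨j, hj, s, hsj⟩ := sing_eq hv0' (hs _ v.2)
  have hs0 : s ≠ 0 := by
    rintro rfl
    exact hv0' (by rw [hsj, zero_smul])
  refine ⟨⟨j, hj⟩, ?_⟩
  symm
  refine Submodule.eq_of_le_of_finrank_eq ?_ ?_
  · rw [cen, Submodule.span_singleton_le_iff_mem]
    have h1 : xv j = s⁻¹ • (v : E) := by rw [hsj, smul_smul, inv_mul_cancel₀ hs0, one_smul]
    show xv j ∈ X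
    rw [h1]
    exact X.smul_mem _ v.2
  · rw [hf1, cen, finrank_span_singleton (xv_ne hj)]

theorem mem_line_cen (i j : Fin 40) : P i ∈ line (cen j) ↔ ∃ k, on j k = i := by
  rw [mem_line_iff, cen, Submodule.span_singleton_le_iff_mem, ← incN_iff]
  exact mem_pl_xv i.2 j.2

theorem line_cen (j : Fin 40) : line (cen j) = Set.range fun k => P (on j k) := by
  ext Z
  obtain ⟨i, rfl⟩ := P_surj Z
  rw [mem_line_cen]
  constructor
  · rintro ⟨k, rfl⟩
    exact ⟨k, rfl⟩
  · rintro ⟨k, hk⟩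
    exact ⟨k, P_inj hk⟩

/-- different points are separated by a line -/
theorem exists_sep {i k : Fin 40} (hne : i ≠ k) : ∃ j, (∃ l, on j l = i) ∧ ¬ ∃ l, on j l = k := by
  have h1 := chkSepPl_true
  simp only [chkSepPl, allb_iff, anyb_iff, Bool.and_eq_true, beq_iff_eq, Bool.or_eq_true,
    Bool.not_eq_true'] at h1
  rcases h1 i i.2 k k.2 with h3 | ⟨j, hj, h3, h4⟩
  · exact absurd (Fin.ext h3) hne
  · refine ⟨⟨j, hj⟩, (incN_iff _ _).1 h3, fun h => ?_⟩
    have h5 := (incN_iff _ _).2 h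
    rw [h4] at h5
    exact absurd h5 (by simp)

end Pool.Agent.VeronDual.F3
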