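import Mathlib
import Pool.Agent.VeronDual.F3Geo

/-!
# Veronesean embeddings of the dual polar space of type B_2 over F_3 from tables
-/

namespace Pool.Agent.VeronDual.F3

open LinearAlgebra.Projectivization

universe u

/-- A good table: `tv i` spans the image of the `i`-th point, `sg` are the coefficients of the
relations on the lines. -/
structure Good {W : Type*} [AddCommGroup W] [Module K W] (tv : Fin 40 → W)
    (sg : Fin 40 → Fin 4 → K) : Prop where
  rel : ∀ j, ∑ k, sg j k • tv (on j k) = 0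
  sgn : ∀ j k, sg j k ≠ 0
  ind : ∀ j, ∀ a b c : K, a • tv (on j 0) + b • tv (on j 1) + c • tv (on j 2) = 0 →
    a = 0 ∧ b = 0 ∧ c = 0
  sep : ∀ j i, (¬ ∃ k, on j k = i) → ∃ φ : W →ₗ[K] K, (∀ k, φ (tv (on j k)) = 0) ∧ φ (tv i) ≠ 0
  span : Submodule.span K (Set.range tv) = ⊤

variable {W : Type*} [AddCommGroup W] [Module K W]

theorem sq_one {a : K} (h : a ≠ 0) : a * a = 1 := by
  revert h
  revert a
  decide

/-- proportionality of relations -/
theorem Good.prop {tv : Fin 40 → W} {sg : Fin 40 → Fin 4 → K} (g : Good tv sg) (j : Fin 40)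
    (d : Fin 4 → K) (hd : ∑ k, d k • tv (on j k) = 0) : ∃ μ : K, ∀ k, d k = μ * sg j k := by
  refine ⟨d 3 * sg j 3, ?_⟩
  have h1 := g.rel j
  have h3 : d 3 - d 3 * sg j 3 * sg j 3 = 0 := by
    have := sq_one (g.sgn j 3)
    linear_combination (-(d 3)) * this
  have h2 : ∑ k, (d k - d 3 * sg j 3 * sg j k) • tv (on j k) = 0 := by
    simp only [sub_smul, mul_smul, Finset.sum_sub_distrib, ← Finset.smul_sum]
    rw [hd, h1, smul_zero, smul_zero, sub_zero]
  rw [Fin.sum_univ_four, h3, zero_smul, add_zero] at h2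
  obtain ⟨h4, h5, h6⟩ := g.ind j _ _ _ h2
  intro k
  fin_cases k
  · exact sub_eq_zero.1 h4
  · exact sub_eq_zero.1 h5
  · exact sub_eq_zero.1 h6
  · exact sub_eq_zero.1 h3

/-- each point is on a line as the first, second, third or fourth one -/
theorem exists_line (i : Fin 40) : ∃ j k, on j k = i := by
  obtain ⟨k, hk⟩ : ∃ k : Fin 40, i ≠ k := by
    by_cases h : i = 0
    · exact ⟨1, by rw [h]; decide⟩
    · exact ⟨0, h⟩
  obtain ⟨j, ⟨l, hl⟩, _⟩ := exists_sep hk
  exact ⟨j, l, hl⟩

theorem Good.ne_zero {tv : Fin 40 → W} {sg : Fin 40 → Fin 4 → K} (g : Good tv sg) (i : Fin 40) :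
    tv i ≠ 0 := by
  intro h0
  obtain ⟨j, k, rfl⟩ := exists_line i
  have h := g.prop j (fun l => if l = k then 1 else 0) (by simp [h0])
  obtain ⟨μ, hμ⟩ := h
  obtain ⟨l, hl⟩ : ∃ l : Fin 4, l ≠ k := exists_ne k
  have h1 := hμ l
  have h2 := hμ k
  rw [if_neg hl] at h1
  rw [if_pos rfl] at h2
  rcases mul_eq_zero.1 h1.symm with h3 | h3
  · rw [h3, zero_mul] at h2
    exact one_ne_zero h2
  · exact g.sgn j l h3

/-- the index of a point -/
noncomputable def idx (Z : Pt K 2) : Fin 40 := (P_surj Z).choose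

theorem P_idx (Z : Pt K 2) : P (idx Z) = Z := (P_surj Z).choose_spec

theorem idx_P (i : Fin 40) : idx (P i) = i := P_inj (P_idx (P i))

/-- the embedding of a good table -/
noncomputable def Good.emb {tv : Fin 40 → W} {sg : Fin 40 → Fin 4 → K} (g : Good tv sg) :
    Pt K 2 → ℙ K W := fun Z => Projectivization.mk K (tv (idx Z)) (g.ne_zero _)

theorem Good.emb_submodule {tv : Fin 40 → W} {sg : Fin 40 → Fin 4 → K} (g : Good tv sg)
    (Z : Pt K 2) : (g.emb Z).submodule = Submodule.span K {tv (idx Z)} := by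
  rw [Good.emb, Projectivization.submodule_mk]

theorem eq_of_submodule {x y : ℙ K W} (h : x.submodule = y.submodule) : x = y :=
  Projectivization.submodule_injective h

theorem st_cases : ∀ s t : K, (s ≠ 0 ∨ t ≠ 0) →
    (s ^ 2 = 1 ∧ s * t = 0 ∧ t ^ 2 = 0) ∨ (s ^ 2 = 0 ∧ s * t = 0 ∧ t ^ 2 = 1) ∨
    (s ^ 2 = 1 ∧ s * t = 1 ∧ t ^ 2 = 1) ∨ (s ^ 2 = 1 ∧ s * t = -1 ∧ t ^ 2 = 1) := by
  decide

theorem span_smul_eq {a : K} (ha : a ≠ 0) (w : W) :
    Submodule.span K {a • w} = Submodule.span K {w} :=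
  Submodule.span_singleton_smul_eq (IsUnit.mk0 a ha) w

theorem Good.isVerEmb {tv : Fin 40 → W} {sg : Fin 40 → Fin 4 → K} (g : Good tv sg) :
    IsVerEmb g.emb where
  injective := by
    intro Z₁ Z₂ h
    by_contra hne
    have hne' : idx Z₁ ≠ idx Z₂ := fun h' => hne (by rw [← P_idx Z₁, ← P_idx Z₂, h'])
    obtain ⟨j, ⟨l, hl⟩, hn⟩ := exists_sep hne'
    obtain ⟨φ, h1, h2⟩ := g.sep j _ hn
    have h3 : (g.emb Z₁).submodule = (g.emb Z₂).submodule := by rw [h]
    rw [g.emb_submodule, g.emb_submodule] at h3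
    have h4 : tv (idx Z₂) ∈ Submodule.span K {tv (idx Z₁)} := by
      rw [h3]
      exact Submodule.mem_span_singleton_self _
    obtain ⟨c, hc⟩ := Submodule.mem_span_singleton.1 h4
    apply h2
    rw [← hc, map_smul, ← hl, h1, smul_zero]
  conic := by
    intro X hX
    obtain ⟨j, rfl⟩ := centre_eq hX
    set w : Fin 4 → W := fun k => sg j k • tv (on j k) with hw
    have hrel : w 0 + w 1 + w 2 + w 3 = 0 := by
      have := g.rel j
      rwa [Fin.sum_univ_four] at this
    have h3 : w 3 = -(w 0 + w 1 + w 2) := by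
      rw [eq_neg_iff_add_eq_zero, add_comm]
      exact hrel
    have hsub : ∀ k, (g.emb (P (on j k))).submodule = Submodule.span K {w k} := by
      intro k
      rw [g.emb_submodule, idx_P, hw, span_smul_eq (g.sgn j k)]
    refine ⟨![w 0, w 2 - w 0 - w 1, w 1], ?_, ?_⟩
    · rw [Fintype.linearIndependent_iff]
      intro c hc
      simp only [Fin.sum_univ_three, Matrix.cons_val_zero, Matrix.cons_val_one,
        Matrix.cons_val] at hc
      have h4 : ((c 0 - c 1) * sg j 0) • tv (on j 0) + ((c 2 - c 1) * sg j 1) • tv (on j 1) +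
          (c 1 * sg j 2) • tv (on j 2) = 0 := by
        rw [← hc]
        simp only [hw, mul_smul, sub_smul, smul_sub]
        abel
      obtain ⟨h5, h6, h7⟩ := g.ind j _ _ _ h4
      have h8 := (mul_eq_zero.1 h7).resolve_right (g.sgn j 2)
      have h9 := (mul_eq_zero.1 h5).resolve_right (g.sgn j 0)
      have h10 := (mul_eq_zero.1 h6).resolve_right (g.sgn j 1)
      rw [h8, sub_zero] at h9 h10
      intro i
      fin_cases i
      · exact h9
      · exact h8
      · exact h10
    · ext x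
      rw [line_cen]
      simp only [Set.mem_image, Set.mem_range, exists_exists_eq_and, Set.mem_ofPred_eq,
        Matrix.cons_val_zero, Matrix.cons_val_one, Matrix.cons_val]
      have hv0 : ∀ s t : K, s ^ 2 = 1 → s * t = 0 → t ^ 2 = 0 →
          s ^ 2 • w 0 + (s * t) • (w 2 - w 0 - w 1) + t ^ 2 • w 1 = w 0 := by
        intro s t h1 h2 h3
        rw [h1, h2, h3]
        simp
      have hv1 : ∀ s t : K, s ^ 2 = 0 → s * t = 0 → t ^ 2 = 1 →
          s ^ 2 • w 0 + (s * t) • (w 2 - w 0 - w 1) + t ^ 2 • w 1 = w 1 := by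
        intro s t h1 h2 h3
        rw [h1, h2, h3]
        simp
      have hv2 : ∀ s t : K, s ^ 2 = 1 → s * t = 1 → t ^ 2 = 1 →
          s ^ 2 • w 0 + (s * t) • (w 2 - w 0 - w 1) + t ^ 2 • w 1 = w 2 := by
        intro s t h1 h2 h3
        rw [h1, h2, h3]
        simp only [one_smul]
        abel
      have hv3 : ∀ s t : K, s ^ 2 = 1 → s * t = -1 → t ^ 2 = 1 →
          s ^ 2 • w 0 + (s * t) • (w 2 - w 0 - w 1) + t ^ 2 • w 1 = w 3 := by
        intro s t h1 h2 h4
        rw [h1, h2, h4, h3]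
        have h5 : ∀ v : W, v + v = -v := by
          intro v
          have h6 : (3 : K) • v = 0 := by
            have : (3 : K) = 0 := by decide
            rw [this, zero_smul]
          have h7 : (3 : K) • v = v + v + v := by
            rw [show (3 : K) = 1 + 1 + 1 by decide, add_smul, add_smul, one_smul]
          rw [h7] at h6
          exact eq_neg_of_add_eq_zero_left h6
        simp only [one_smul, neg_smul]
        have h8 := h5 (w 0)
        have h9 := h5 (w 1)
        calc w 0 + -(w 2 - w 0 - w 1) + w 1 = (w 0 + w 0) + (w 1 + w 1) - w 2 := by abel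
          _ = -(w 0 + w 1 + w 2) := by rw [h8, h9]; abel
      constructor
      · rintro ⟨k, rfl⟩
        fin_cases k
        · refine ⟨1, 0, Or.inl one_ne_zero, ?_⟩
          rw [hv0 1 0 (by decide) (by decide) (by decide)]
          exact hsub 0
        · refine ⟨0, 1, Or.inr one_ne_zero, ?_⟩
          rw [hv1 0 1 (by decide) (by decide) (by decide)]
          exact hsub 1
        · refine ⟨1, 1, Or.inr one_ne_zero, ?_⟩
          rw [hv2 1 1 (by decide) (by decide) (by decide)]
          exact hsub 2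
        · refine ⟨1, -1, Or.inl one_ne_zero, ?_⟩
          rw [hv3 1 (-1) (by decide) (by decide) (by decide)]
          exact hsub 3
      · rintro ⟨s, t, hst, hx⟩
        rcases st_cases s t hst with ⟨h1, h2, h4⟩ | ⟨h1, h2, h4⟩ | ⟨h1, h2, h4⟩ | ⟨h1, h2, h4⟩
        · rw [hv0 s t h1 h2 h4, ← hsub 0] at hx
          exact ⟨0, (eq_of_submodule hx).symm⟩
        · rw [hv1 s t h1 h2 h4, ← hsub 1] at hx
          exact ⟨1, (eq_of_submodule hx).symm⟩
        · rw [hv2 s t h1 h2 h4, ← hsub 2] at hx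
          exact ⟨2, (eq_of_submodule hx).symm⟩
        · rw [hv3 s t h1 h2 h4, ← hsub 3] at hx
          exact ⟨3, (eq_of_submodule hx).symm⟩
  separated := by
    intro X hX p hp
    obtain ⟨j, rfl⟩ := centre_eq hX
    rw [← P_idx p, mem_line_cen] at hp
    obtain ⟨φ, h1, h2⟩ := g.sep j _ hp
    have h3 : (⨆ z ∈ line (cen j), (g.emb z).submodule) ≤ LinearMap.ker φ := by
      refine iSup₂_le fun z hz => ?_
      rw [line_cen] at hz
      obtain ⟨k, rfl⟩ := hz
      rw [g.emb_submodule, idx_P, Submodule.span_singleton_le_iff_mem, LinearMap.mem_ker]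
      exact h1 k
    rw [eq_bot_iff]
    rintro v ⟨hv1, hv2⟩
    have hv1' : v ∈ (g.emb p).submodule := hv1
    rw [g.emb_submodule] at hv1'
    obtain ⟨c, rfl⟩ := Submodule.mem_span_singleton.1 hv1'
    have h4 := h3 hv2
    rw [LinearMap.mem_ker, map_smul, smul_eq_mul] at h4
    rw [(mul_eq_zero.1 h4).resolve_right h2, zero_smul]
    exact Submodule.zero_mem _
  spans := by
    rw [eq_top_iff, ← g.span, Submodule.span_le]
    rintro _ ⟨i, rfl⟩
    refine Submodule.mem_iSup_of_mem (P i) ?_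
    rw [g.emb_submodule, idx_P]
    exact Submodule.mem_span_singleton_self _

end Pool.Agent.VeronDual.F3
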