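import Mathlib
import Pool.Agent.VeronDual.F3Emb

/-!
# Two veronesean embeddings with different sign classes have no common cover
-/

namespace Pool.Agent.VeronDual.F3

open LinearAlgebra.Projectivization

universe u

variable {W : Type*} [AddCommGroup W] [Module K W]

/-- coordinates of the four points of a conic over `F_3` -/
def cst : Fin 4 → Fin 3 → K := ![![1, 0, 0], ![0, 0, 1], ![1, 1, 1], ![1, -1, 1]]

theorem cst_sum : ∀ r, ∑ m, cst m r = 0 := by decide

theorem st_cst : ∀ s t : K, (s ≠ 0 ∨ t ≠ 0) →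
    ∃ m, s ^ 2 = cst m 0 ∧ s * t = cst m 1 ∧ t ^ 2 = cst m 2 := by decide

/-- the relation between the four points of a line in any veronesean embedding -/
theorem exists_rel {ε : Pt K 2 → ℙ K W} (hε : IsVerEmb ε) (j : Fin 40) :
    ∃ c : Fin 4 → K, (∀ k, c k ≠ 0) ∧ ∑ k, c k • (ε (P (on j k))).rep = 0 := by
  obtain ⟨e, he, hS⟩ := hε.conic _ (cen_isCentre j)
  have h1 : ∀ k, ∃ s t : K, (s ≠ 0 ∨ t ≠ 0) ∧
      (ε (P (on j k))).submodule =
        Submodule.span K {s ^ 2 • e 0 + (s * t) • e 1 + t ^ 2 • e 2} := by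
    intro k
    have h2 : ε (P (on j k)) ∈ ε '' line (cen j) :=
      ⟨_, by rw [line_cen]; exact ⟨k, rfl⟩, rfl⟩
    rw [hS] at h2
    exact h2
  have h2 : ∀ k, ∃ m, (ε (P (on j k))).submodule =
      Submodule.span K {cst m 0 • e 0 + cst m 1 • e 1 + cst m 2 • e 2} := by
    intro k
    obtain ⟨s, t, hst, h3⟩ := h1 k
    obtain ⟨m, hm0, hm1, hm2⟩ := st_cst s t hst
    exact ⟨m, by rw [h3, hm0, hm1, hm2]⟩
  choose m hm using h2
  have hminj : Function.Injective m := by
    intro k l hkl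
    have h3 : ε (P (on j k)) = ε (P (on j l)) := by
      apply eq_of_submodule
      rw [hm, hm, hkl]
    exact on_inj j (P_inj (hε.injective h3))
  have hmb : Function.Bijective m := Finite.injective_iff_bijective.1 hminj
  have h4 : ∀ k, ∃ c : K, c ≠ 0 ∧
      c • (ε (P (on j k))).rep = cst (m k) 0 • e 0 + cst (m k) 1 • e 1 + cst (m k) 2 • e 2 := by
    intro k
    have h5 : (ε (P (on j k))).rep ∈ (ε (P (on j k))).submodule := by
      rw [Projectivization.submodule_eq]
      exact Submodule.mem_span_singleton_self _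
    rw [hm k] at h5
    obtain ⟨c, hc⟩ := Submodule.mem_span_singleton.1 h5
    have hc0 : c ≠ 0 := by
      rintro rfl
      rw [zero_smul] at hc
      exact (ε (P (on j k))).rep_nonzero hc.symm
    refine ⟨c⁻¹, inv_ne_zero hc0, ?_⟩
    rw [← hc, smul_smul, inv_mul_cancel₀ hc0, one_smul]
  choose c hc0 hc using h4
  refine ⟨c, hc0, ?_⟩
  simp only [hc]
  rw [Finset.sum_add_distrib, Finset.sum_add_distrib, ← Finset.sum_smul, ← Finset.sum_smul,
    ← Finset.sum_smul]
  have h6 : ∀ r, ∑ k, cst (m k) r = 0 := by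
    intro r
    rw [hmb.sum_comp (fun k => cst k r)]
    exact cst_sum r
  rw [h6, h6, h6]
  simp

/-- the images of representatives under a morphism -/
theorem exists_scalar {W₁ : Type*} [AddCommGroup W₁] [Module K W₁] {tv : Fin 40 → W}
    {sg : Fin 40 → Fin 4 → K} (g : Good tv sg) {ε : Pt K 2 → ℙ K W₁}
    (hq : IsQuotient ε g.emb) :
    ∃ (f : W₁ →ₗ[K] W) (lam : Fin 40 → K), (∀ i, lam i ≠ 0) ∧
      ∀ i, f (ε (P i)).rep = lam i • tv i := by
  obtain ⟨σ, f, hadd, hsmul, hf⟩ := hq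
  have hσ : ∀ a : K, σ a = a := by
    intro a
    have : (σ : K →+* K) = RingHom.id K := Subsingleton.elim _ _
    exact RingHom.congr_fun this a
  have h1 : ∀ i, ∃ l : K, l ≠ 0 ∧ f (ε (P i)).rep = l • tv i := by
    intro i
    have h2 : (ε (P i)).rep ∈ (ε (P i)).submodule := by
      rw [Projectivization.submodule_eq]
      exact Submodule.mem_span_singleton_self _
    obtain ⟨h3, h4⟩ := hf (P i) _ h2 (ε (P i)).rep_nonzero
    rw [g.emb_submodule, idx_P] at h4
    obtain ⟨l, hl⟩ := Submodule.mem_span_singleton.1 h4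
    refine ⟨l, ?_, hl.symm⟩
    rintro rfl
    rw [zero_smul] at hl
    exact h3 hl.symm
  choose lam h2 h3 using h1
  refine ⟨{ toFun := f, map_add' := hadd, map_smul' := ?_ }, lam, h2, h3⟩
  intro a x
  rw [hsmul, hσ]
  rfl

/-- the coefficients of the relations of a cover and of a quotient agree up to scalars -/
theorem exists_coeff {W₁ : Type*} [AddCommGroup W₁] [Module K W₁] {tv : Fin 40 → W}
    {sg : Fin 40 → Fin 4 → K} (g : Good tv sg) {ε : Pt K 2 → ℙ K W₁}
    (hq : IsQuotient ε g.emb) (c : Fin 40 → Fin 4 → K)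
    (hc0 : ∀ j k, c j k ≠ 0) (hc : ∀ j, ∑ k, c j k • (ε (P (on j k))).rep = 0) :
    ∃ (lam mu : Fin 40 → K), (∀ i, lam i ≠ 0) ∧ (∀ j, mu j ≠ 0) ∧
      ∀ j k, c j k * lam (on j k) = mu j * sg j k := by
  obtain ⟨f, lam, h1, h2⟩ := exists_scalar g hq
  have h3 : ∀ j, ∃ μ : K, ∀ k, c j k * lam (on j k) = μ * sg j k := by
    intro j
    apply g.prop j (fun k => c j k * lam (on j k))
    have h4 := congrArg f (hc j)
    rw [map_sum, map_zero] at h4
    rw [← h4]
    refine Finset.sum_congr rfl fun k _ => ?_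
    rw [map_smul, h2, smul_smul]
  choose mu h4 using h3
  refine ⟨lam, mu, h1, fun j h5 => ?_, h4⟩
  have h6 := h4 j 0
  rw [h5, zero_mul] at h6
  rcases mul_eq_zero.1 h6 with h7 | h7
  · exact hc0 _ _ h7
  · exact h1 _ h7

/-- Two good tables whose sign functions have different products around a quadrangle have no
common cover. -/
theorem no_cover {W₁ W₂ W₃ : Type*} [AddCommGroup W₁] [Module K W₁] [AddCommGroup W₂]
    [Module K W₂] [AddCommGroup W₃] [Module K W₃] {tv : Fin 40 → W₁} {sg : Fin 40 → Fin 4 → K}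
    (g : Good tv sg) {tv' : Fin 40 → W₂} {sg' : Fin 40 → Fin 4 → K} (g' : Good tv' sg')
    {ε : Pt K 2 → ℙ K W₃} (hε : IsVerEmb ε) (h1 : IsQuotient ε g.emb)
    (h2 : IsQuotient ε g'.emb) :
    ∃ (rho nu : Fin 40 → K), (∀ i, rho i ≠ 0) ∧ (∀ j, nu j ≠ 0) ∧
      ∀ j k, rho (on j k) = nu j * (sg j k * sg' j k) := by
  have h3 := exists_rel hε
  choose c hc0 hc using h3
  obtain ⟨lam, mu, h4, h5, h6⟩ := exists_coeff g h1 c hc0 hc
  obtain ⟨lam', mu', h4', h5', h6'⟩ := exists_coeff g' h2 c hc0 hc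
  refine ⟨fun i => lam i * lam' i, fun j => mu j * mu' j, fun i => mul_ne_zero (h4 i) (h4' i),
    fun j => mul_ne_zero (h5 j) (h5' j), fun j k => ?_⟩
  have h7 := sq_one (hc0 j k)
  calc lam (on j k) * lam' (on j k)
      = (c j k * c j k) * (lam (on j k) * lam' (on j k)) := by rw [h7, one_mul]
    _ = (c j k * lam (on j k)) * (c j k * lam' (on j k)) := by ring
    _ = (mu j * sg j k) * (mu' j * sg' j k) := by rw [h6, h6']
    _ = mu j * mu' j * (sg j k * sg' j k) := by ring

/-- good tables from the checks -/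
theorem good_of_chk {T S N I d c : ℕ} (h : chkTab T S N d c = true)
    (hu : chkUnit T I d = true) :
    Good (fun (i : Fin 40) (r : Fin d) => ((tN T d i r : ℕ) : K))
      (fun j k => ((sN S j k : ℕ) : K)) := by
  simp only [chkTab, allb_iff, anyb_iff, Bool.and_eq_true, Bool.or_eq_true,
    Bool.not_eq_true', beq_eq_false_iff_ne, beq_iff_eq, sumb_eq] at h
  refine ⟨?_, ?_, ?_, ?_, ?_⟩
  · intro j
    funext r
    have h1 := (h j j.2).1 r r.2
    rw [← natCast_eq_zero, Nat.cast_sum] at h1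
    rw [Finset.sum_apply, ← Fin.sum_univ_eq_sum_range (fun k => ((sN S j k *
      tN T d (onN j k) r : ℕ) : K)) 4] at *
    rw [Pi.zero_apply, ← h1]
    refine Finset.sum_congr rfl fun k _ => ?_
    rw [Pi.smul_apply, smul_eq_mul, on_val, Nat.cast_mul]
  · intro j k h1
    exact (h j j.2).2.1 k k.2 (natCast_eq_zero.1 h1)
  · intro j a b e h1
    obtain ⟨a', ha, rfl⟩ := exists_nat a
    obtain ⟨b', hb, rfl⟩ := exists_nat b
    obtain ⟨e', he, rfl⟩ := exists_nat e
    rcases (h j j.2).2.2.1 a' ha b' hb e' he with h2 | ⟨r, hr, h2⟩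
    · simp [h2.1, h2.2.1, h2.2.2]
    · exfalso
      apply h2
      rw [← natCast_eq_zero]
      have h3 := congrFun h1 ⟨r, hr⟩
      simp only [Pi.add_apply, Pi.smul_apply, smul_eq_mul, Pi.zero_apply, on_val] at h3
      push_cast
      exact h3
  · intro j i hji
    rcases (h j j.2).2.2.2.2 i i.2 with h1 | ⟨a, ha, h1⟩
    · exact absurd ((incN_iff i j).1 h1) hji
    · refine ⟨∑ r : Fin d, ((nN N d c j a r : ℕ) : K) • LinearMap.proj r, ?_, ?_⟩
      · intro k
        have h2 := (h j j.2).2.2.2.1 a ha k k.2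
        rw [← natCast_eq_zero, Nat.cast_sum,
          ← Fin.sum_univ_eq_sum_range (fun r => ((nN N d c j a r *
            tN T d (onN j k) r : ℕ) : K)) d] at h2
        rw [← h2, LinearMap.sum_apply]
        refine Finset.sum_congr rfl fun r _ => ?_
        rw [LinearMap.smul_apply, LinearMap.proj_apply, smul_eq_mul, on_val, Nat.cast_mul]
      · intro h3
        apply h1
        rw [← natCast_eq_zero, Nat.cast_sum,
          ← Fin.sum_univ_eq_sum_range (fun r => ((nN N d c j a r *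
            tN T d i r : ℕ) : K)) d, ← h3, LinearMap.sum_apply]
        refine Finset.sum_congr rfl fun r _ => ?_
        rw [LinearMap.smul_apply, LinearMap.proj_apply, smul_eq_mul, Nat.cast_mul]
  · simp only [chkUnit, allb_iff, Bool.and_eq_true, beq_iff_eq] at hu
    rw [eq_top_iff, ← (Pi.basisFun K (Fin d)).span_eq, Submodule.span_le]
    rintro _ ⟨s, rfl⟩
    refine Submodule.subset_span ⟨⟨(I >>> (6 * (s : ℕ))) % 64, Eq.mp Nat.blt_eq (hu s s.2).1⟩, ?_⟩
    funext r
    have h1 := (hu s s.2).2 r r.2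
    show ((tN T d ((I >>> (6 * (s : ℕ))) % 64) r : ℕ) : K) = _
    rw [h1, Pi.basisFun_apply, Pi.single_apply]
    by_cases h2 : s = r
    · rw [if_pos (congrArg _ h2), if_pos h2.symm, Nat.cast_one]
    · rw [if_neg (fun h3 => h2 (Fin.ext h3)), if_neg (fun h3 => h2 h3.symm), Nat.cast_zero]

theorem goodA : Good (fun (i : Fin 40) (r : Fin 7) => ((tN dTA 7 i r : ℕ) : K))
    (fun j k => ((sN dSA j k : ℕ) : K)) := good_of_chk chkTabA_true chkUnitA_true

theorem goodB : Good (fun (i : Fin 40) (r : Fin 6) => ((tN dTB 6 i r : ℕ) : K))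
    (fun j k => ((sN dSB j k : ℕ) : K)) := good_of_chk chkTabB_true chkUnitB_true

/-- the two embeddings have no common cover -/
theorem no_common_cover {W : Type*} [AddCommGroup W] [Module K W] {ε : Pt K 2 → ℙ K W}
    (hε : IsVerEmb ε) (h1 : IsQuotient ε goodA.emb) (h2 : IsQuotient ε goodB.emb) : False := by
  obtain ⟨rho, nu, hr, hn, h⟩ := no_cover goodA goodB hε h1 h2
  have e00 : rho 0 = nu 0 * (1 * 1) := h 0 0
  have e01 : rho 1 = nu 0 * (1 * 2) := h 0 1
  have e10 : rho 1 = nu 9 * (1 * 1) := h 9 0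
  have e11 : rho 16 = nu 9 * (1 * 1) := h 9 1
  have e20 : rho 16 = nu 5 * (1 * 1) := h 5 1
  have e21 : rho 4 = nu 5 * (1 * 1) := h 5 0
  have e30 : rho 4 = nu 1 * (1 * 1) := h 1 1
  have e31 : rho 0 = nu 1 * (1 * 1) := h 1 0
  have h3 : rho 0 = rho 0 * 2 := by
    calc rho 0 = nu 1 * (1 * 1) := e31
      _ = rho 4 := e30.symm
      _ = nu 5 * (1 * 1) := e21
      _ = rho 16 := e20.symm
      _ = nu 9 * (1 * 1) := e11
      _ = rho 1 := e10.symm
      _ = nu 0 * (1 * 2) := e01
      _ = (nu 0 * (1 * 1)) * 2 := by ring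
      _ = rho 0 * 2 := by rw [e00]
  have h4 : ∀ x : K, x ≠ 0 → x ≠ x * 2 := by decide
  exact h4 _ (hr 0) h3

end Pool.Agent.VeronDual.F3
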