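import Mathlib
import Pool.Agent.VeronDual.Defs

/-!
# The absolutely universal veronesean embedding over the field with two elements
-/

namespace Pool.Agent.VeronDual.F2

open LinearAlgebra.Projectivization

universe u v

/-- the field -/
abbrev K : Type := ZMod 2

variable {n : ℕ}

/-- the bilinear form of `q` in characteristic two -/
def bil (n : ℕ) : LinearMap.BilinForm K (V K n) :=
  LinearMap.mk₂ K (fun w z => ∑ i, (w.2.1 i * z.2.2 i + z.2.1 i * w.2.2 i))
    (by
      intro a b c
      rw [← Finset.sum_add_distrib]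
      refine Finset.sum_congr rfl fun i _ => ?_
      simp only [add_x, add_y]
      ring)
    (by
      intro t a b
      rw [Finset.smul_sum]
      refine Finset.sum_congr rfl fun i _ => ?_
      simp only [smul_x, smul_y, smul_eq_mul]
      ring)
    (by
      intro a b c
      rw [← Finset.sum_add_distrib]
      refine Finset.sum_congr rfl fun i _ => ?_
      simp only [add_x, add_y]
      ring)
    (by
      intro t a b
      rw [Finset.smul_sum]
      refine Finset.sum_congr rfl fun i _ => ?_
      simp only [smul_x, smul_y, smul_eq_mul]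
      ring)

theorem bil_apply (w z : V K n) :
    bil n w z = ∑ i, (w.2.1 i * z.2.2 i + z.2.1 i * w.2.2 i) := rfl

theorem q_add (w z : V K n) : q (w + z) = q w + q z + bil n w z := by
  have h2 : (2 : K) = 0 := by decide
  have h : q (w + z) = q w + q z + bil n w z + 2 * (w.1 * z.1) := by
    simp only [q, bil_apply, add_fst, add_x, add_y]
    have h3 : ∑ i, (w.2.1 i + z.2.1 i) * (w.2.2 i + z.2.2 i) =
        ∑ i, w.2.1 i * w.2.2 i + ∑ i, z.2.1 i * z.2.2 i +
          ∑ i, (w.2.1 i * z.2.2 i + z.2.1 i * w.2.2 i) := by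
      rw [← Finset.sum_add_distrib, ← Finset.sum_add_distrib]
      refine Finset.sum_congr rfl fun i _ => ?_
      ring
    rw [h3]
    ring
  rw [h, h2, zero_mul, add_zero]

/-- the radical vector -/
def e0 (n : ℕ) : V K n := (1, 0, 0)

theorem e0_fst : (e0 n).1 = 1 := rfl

theorem e0_x (i : Fin n) : (e0 n).2.1 i = 0 := rfl

theorem e0_y (i : Fin n) : (e0 n).2.2 i = 0 := rfl

theorem q_e0 : q (e0 n) = 1 := by simp [q, e0_fst, e0_x]

theorem bil_e0 (w : V K n) : bil n w (e0 n) = 0 := by simp [bil_apply, e0_x, e0_y]

theorem two_cases (a : K) : a = 0 ∨ a = 1 := by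
  revert a
  decide

theorem q_add_e0 (w : V K n) (a : K) : q (w + a • e0 n) = q w + a := by
  rcases two_cases a with rfl | rfl
  · simp
  · rw [one_smul, q_add, q_e0, bil_e0, add_zero]

theorem q_zero : q (0 : V K n) = 0 := by simp [q, zero_fst, zero_x]

theorem add_self (w : V K n) : w + w = 0 := by
  rw [← two_smul K w, show (2 : K) = 0 by decide, zero_smul]

theorem finrank_perp {X : Submodule K (V K n)} (hX : IsCentre X) :
    Module.finrank K ((bil n).orthogonal X) = n + 2 := by
  have h := LinearMap.BilinForm.finrank_add_finrank_orthogonal' (B := bil n) X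
  have h1 : X ⊓ LinearMap.ker (bil n) = ⊥ := by
    rw [eq_bot_iff]
    rintro w ⟨hw1, hw2⟩
    have hw3 : ∀ z, bil n w z = 0 := fun z => by
      have := LinearMap.mem_ker.1 hw2
      rw [this]
      rfl
    have h2 : w.2.1 = 0 := by
      funext i
      have := hw3 ((0, 0, Pi.single i 1) : K × (Fin n → K) × (Fin n → K))
      rw [bil_apply] at this
      simpa [Pi.single_apply] using this
    have h3 : w.2.2 = 0 := by
      funext i
      have := hw3 ((0, Pi.single i 1, 0) : K × (Fin n → K) × (Fin n → K))
      rw [bil_apply] at this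
      simpa [Pi.single_apply] using this
    have h4 := hX.1 w hw1
    rw [q, h2, h3] at h4
    have h5 : w.1 = 0 := by simpa using h4
    rw [Submodule.mem_bot]
    exact Prod.ext h5 (Prod.ext h2 h3)
  have h2 : Module.finrank K (V K n) = 2 * n + 1 := finrank_V K n
  rw [h1, finrank_bot, h2] at h
  have h3 := hX.2
  omega

theorem finrank_sup_singleton {Y : Submodule K (V K n)} {v : V K n} (hv : v ∉ Y) :
    Module.finrank K (Y ⊔ Submodule.span K {v} : Submodule K (V K n)) =
      Module.finrank K Y + 1 := by
  have h := Submodule.finrank_sup_add_finrank_inf_eq Y (Submodule.span K {v})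
  have h1 : Y ⊓ Submodule.span K {v} = ⊥ := by
    rw [eq_bot_iff]
    rintro w ⟨hw1, hw2⟩
    obtain ⟨c, rfl⟩ := Submodule.mem_span_singleton.1 hw2
    rcases two_cases c with rfl | rfl
    · simp
    · rw [one_smul] at hw1
      exact absurd hw1 hv
  have h2 : v ≠ 0 := fun h => hv (h ▸ Y.zero_mem)
  rw [h1, finrank_bot, finrank_span_singleton h2] at h
  exact h

theorem exists_not_mem {Y Z : Submodule K (V K n)}
    (h : Module.finrank K Y < Module.finrank K Z) : ∃ v ∈ Z, v ∉ Y := by
  by_contra hne
  push Not at hne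
  have := Submodule.finrank_mono (R := K) (s := Z) (t := Y) hne
  omega

theorem mem_sup_single {Y : Submodule K (V K n)} {v w : V K n}
    (h : w ∈ Y ⊔ Submodule.span K {v}) : ∃ y ∈ Y, ∃ c : K, w = y + c • v := by
  obtain ⟨y, hy, z, hz, rfl⟩ := Submodule.mem_sup.1 h
  obtain ⟨c, rfl⟩ := Submodule.mem_span_singleton.1 hz
  exact ⟨y, hy, c, rfl⟩

/-- the point spanned by `X` and a singular vector of `X^⊥` outside `X` -/
def mkPt {X : Submodule K (V K n)} (hX : IsCentre X) {s : V K n} (hs : q s = 0)
    (hp : ∀ x ∈ X, bil n x s = 0) (hn : s ∉ X) : Pt K n :=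
  ⟨X ⊔ Submodule.span K {s}, by
    intro w hw
    obtain ⟨x, hx, c, rfl⟩ := mem_sup_single hw
    rcases two_cases c with rfl | rfl
    · rw [zero_smul, add_zero]
      exact hX.1 x hx
    · rw [one_smul, q_add, hX.1 x hx, hs, hp x hx, add_zero, add_zero], by
    rw [finrank_sup_singleton hn]
    exact hX.2⟩

/-- every line has exactly three points -/
theorem line_three {X : Submodule K (V K n)} (hX : IsCentre X) :
    ∃ p₁ p₂ p₃ : Pt K n, p₁ ≠ p₂ ∧ p₁ ≠ p₃ ∧ p₂ ≠ p₃ ∧ line X = {p₁, p₂, p₃} := by
  set Y := (bil n).orthogonal X with hY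
  have hmemY : ∀ {w}, w ∈ Y ↔ ∀ x ∈ X, bil n x w = 0 := by
    intro w
    rw [hY, LinearMap.BilinForm.mem_orthogonal_iff]
  have hfY := finrank_perp hX
  rw [← hY] at hfY
  have he0 : e0 n ∉ X := fun h => by
    have := hX.1 _ h
    rw [q_e0] at this
    exact one_ne_zero this
  have hf0 := finrank_sup_singleton he0
  have hX2 := hX.2
  obtain ⟨a, haY, ha⟩ := exists_not_mem (Y := X ⊔ Submodule.span K {e0 n}) (Z := Y) (by omega)
  have hf1 := finrank_sup_singleton ha
  obtain ⟨b, hbY, hb⟩ := exists_not_mem
    (Y := X ⊔ Submodule.span K {e0 n} ⊔ Submodule.span K {a}) (Z := Y) (by omega)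
  have hf2 := finrank_sup_singleton hb
  have he0Y : e0 n ∈ Y := hmemY.2 fun x _ => bil_e0 x
  have hXY : X ≤ Y := by
    intro x hx
    rw [hmemY]
    intro x' hx'
    have h1 := hX.1 _ (X.add_mem hx' hx)
    rw [q_add, hX.1 _ hx', hX.1 _ hx, add_zero, zero_add] at h1
    exact h1
  have hYeq : X ⊔ Submodule.span K {e0 n} ⊔ Submodule.span K {a} ⊔ Submodule.span K {b} = Y := by
    refine Submodule.eq_of_le_of_finrank_eq ?_ (by omega)
    refine sup_le (sup_le (sup_le hXY ?_) ?_) ?_
    · rw [Submodule.span_singleton_le_iff_mem]; exact he0Y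
    · rw [Submodule.span_singleton_le_iff_mem]; exact haY
    · rw [Submodule.span_singleton_le_iff_mem]; exact hbY
  -- uniqueness of the coefficients
  have huniq : ∀ x ∈ X, ∀ α β γ : K, x + α • e0 n + β • a + γ • b = 0 → β = 0 ∧ γ = 0 := by
    intro x hx α β γ h
    have h1 : γ = 0 := by
      rcases two_cases γ with h1 | h1
      · exact h1
      · exfalso
        rw [h1, one_smul] at h
        have h2 : b = x + α • e0 n + β • a := by
          have h3 := congrArg (· + b) h
          simp only [zero_add, add_assoc, add_self, add_zero] at h3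
          rw [← h3, add_assoc]
        apply hb
        rw [h2]
        exact Submodule.add_mem_sup (Submodule.add_mem_sup hx
          (Submodule.smul_mem _ _ (Submodule.mem_span_singleton_self _)))
          (Submodule.smul_mem _ _ (Submodule.mem_span_singleton_self _))
    refine ⟨?_, h1⟩
    rw [h1, zero_smul, add_zero] at h
    rcases two_cases β with h1 | h1
    · exact h1
    · exfalso
      rw [h1, one_smul] at h
      have h2 : a = x + α • e0 n := by
        have h3 := congrArg (· + a) h
        simp only [zero_add, add_assoc, add_self, add_zero] at h3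
        rw [← h3]
      apply ha
      rw [h2]
      exact Submodule.add_mem_sup hx
        (Submodule.smul_mem _ _ (Submodule.mem_span_singleton_self _))
  -- the three singular vectors
  have hsing : ∀ w : V K n, q (w + q w • e0 n) = 0 := by
    intro w
    rw [q_add_e0]
    rcases two_cases (q w) with h | h <;> rw [h] <;> decide
  have hcombY : ∀ α β γ : K, α • e0 n + β • a + γ • b ∈ Y := fun α β γ =>
    Y.add_mem (Y.add_mem (Y.smul_mem _ he0Y) (Y.smul_mem _ haY)) (Y.smul_mem _ hbY)
  set s₁ := a + q a • e0 n with hs₁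
  set s₂ := b + q b • e0 n with hs₂
  set s₃ := a + b + q (a + b) • e0 n with hs₃
  have hY₁ : s₁ ∈ Y := Y.add_mem haY (Y.smul_mem _ he0Y)
  have hY₂ : s₂ ∈ Y := Y.add_mem hbY (Y.smul_mem _ he0Y)
  have hY₃ : s₃ ∈ Y := Y.add_mem (Y.add_mem haY hbY) (Y.smul_mem _ he0Y)
  have hn₁ : s₁ ∉ X := fun h => by
    have h1 := huniq s₁ h (q a) 1 0 (by
      rw [hs₁]
      have := add_self a
      have h2 := add_self (q a • e0 n)
      calc a + q a • e0 n + q a • e0 n + (1 : K) • a + (0 : K) • b
          = (a + a) + (q a • e0 n + q a • e0 n) := by rw [one_smul, zero_smul]; abel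
        _ = 0 := by rw [this, h2, add_zero])
    exact one_ne_zero h1.1
  have hn₂ : s₂ ∉ X := fun h => by
    have h1 := huniq s₂ h (q b) 0 1 (by
      rw [hs₂]
      have := add_self b
      have h2 := add_self (q b • e0 n)
      calc b + q b • e0 n + q b • e0 n + (0 : K) • a + (1 : K) • b
          = (b + b) + (q b • e0 n + q b • e0 n) := by rw [one_smul, zero_smul]; abel
        _ = 0 := by rw [this, h2, add_zero])
    exact one_ne_zero h1.2
  have hn₃ : s₃ ∉ X := fun h => by
    have h1 := huniq s₃ h (q (a + b)) 1 1 (by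
      rw [hs₃]
      have := add_self (a + b)
      have h2 := add_self (q (a + b) • e0 n)
      calc a + b + q (a + b) • e0 n + q (a + b) • e0 n + (1 : K) • a + (1 : K) • b
          = ((a + b) + (a + b)) + (q (a + b) • e0 n + q (a + b) • e0 n) := by
            rw [one_smul, one_smul]; abel
        _ = 0 := by rw [this, h2, add_zero])
    exact one_ne_zero h1.1
  let p₁ := mkPt hX (hsing a) (hmemY.1 hY₁) hn₁
  let p₂ := mkPt hX (hsing b) (hmemY.1 hY₂) hn₂
  let p₃ := mkPt hX (hsing (a + b)) (hmemY.1 hY₃) hn₃
  have hmem₁ : s₁ ∈ p₁.1 := Submodule.mem_sup_right (Submodule.mem_span_singleton_self _)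
  have hmem₂ : s₂ ∈ p₂.1 := Submodule.mem_sup_right (Submodule.mem_span_singleton_self _)
  have hmem₃ : s₃ ∈ p₃.1 := Submodule.mem_sup_right (Submodule.mem_span_singleton_self _)
  -- elements of the points
  have hel₁ : ∀ w ∈ p₁.1, ∃ x ∈ X, ∃ c : K, w = x + c • s₁ := fun w hw => mem_sup_single hw
  have hel₂ : ∀ w ∈ p₂.1, ∃ x ∈ X, ∃ c : K, w = x + c • s₂ := fun w hw => mem_sup_single hw
  have hne₁₂ : p₁ ≠ p₂ := by
    intro h
    rw [h] at hmem₁
    obtain ⟨x, hx, c, hc⟩ := hel₂ _ hmem₁
    have h1 := huniq x hx (c * q b + q a) 1 c (by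
      have h2 := add_self s₁
      calc x + (c * q b + q a) • e0 n + (1 : K) • a + c • b
          = (x + c • s₂) + s₁ := by
            rw [hs₁, hs₂, smul_add, smul_smul, add_smul, one_smul]; abel
        _ = 0 := by rw [← hc, h2])
    exact one_ne_zero h1.1
  have hne₁₃ : p₁ ≠ p₃ := by
    intro h
    rw [← h] at hmem₃
    obtain ⟨x, hx, c, hc⟩ := hel₁ _ hmem₃
    have h1 := huniq x hx (c * q a + q (a + b)) (c + 1) 1 (by
      have h2 := add_self s₃
      calc x + (c * q a + q (a + b)) • e0 n + (c + 1) • a + (1 : K) • b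
          = (x + c • s₁) + s₃ := by
            rw [hs₁, hs₃, smul_add, smul_smul, add_smul, add_smul, one_smul, one_smul]; abel
        _ = 0 := by rw [← hc, h2])
    exact one_ne_zero h1.2
  have hne₂₃ : p₂ ≠ p₃ := by
    intro h
    rw [← h] at hmem₃
    obtain ⟨x, hx, c, hc⟩ := hel₂ _ hmem₃
    have h1 := huniq x hx (c * q b + q (a + b)) 1 (c + 1) (by
      have h2 := add_self s₃
      calc x + (c * q b + q (a + b)) • e0 n + (1 : K) • a + (c + 1) • b
          = (x + c • s₂) + s₃ := by
            rw [hs₂, hs₃, smul_add, smul_smul, add_smul, add_smul, one_smul, one_smul]; abel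
        _ = 0 := by rw [← hc, h2])
    exact one_ne_zero h1.1
  have hline : ∀ {p : Pt K n} {s : V K n} {hs : q s = 0} {hp : ∀ x ∈ X, bil n x s = 0}
      {hn : s ∉ X}, s ∈ p.1 → X ≤ p.1 → p = mkPt hX hs hp hn := by
    intro p s hs hp hn hsp hXp
    apply Subtype.ext
    symm
    refine Submodule.eq_of_le_of_finrank_eq ?_ ((mkPt hX hs hp hn).2.2.trans p.2.2.symm)
    refine sup_le hXp ?_
    rw [Submodule.span_singleton_le_iff_mem]
    exact hsp
  refine ⟨p₁, p₂, p₃, hne₁₂, hne₁₃, hne₂₃, ?_⟩
  ext p
  rw [mem_line_iff]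
  constructor
  · intro hXp
    obtain ⟨z, hzp, hzX⟩ := exists_not_mem (Y := X) (Z := p.1) (by
      rw [p.2.2]
      omega)
    have hzY : z ∈ Y := by
      rw [hmemY]
      intro x hx
      have h1 := p.2.1 _ (p.1.add_mem (hXp hx) hzp)
      rw [q_add, p.2.1 _ (hXp hx), p.2.1 _ hzp, add_zero, zero_add] at h1
      exact h1
    have hqz := p.2.1 _ hzp
    rw [← hYeq] at hzY
    obtain ⟨y₁, hy₁, γ, h1⟩ := mem_sup_single hzY
    obtain ⟨y₂, hy₂, β, h2⟩ := mem_sup_single hy₁
    obtain ⟨x, hx, α, h3⟩ := mem_sup_single hy₂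
    have hz : z = x + α • e0 n + β • a + γ • b := by rw [h1, h2, h3]
    -- the coefficient of the radical vector is determined
    have key : ∀ s : V K n, (∀ x ∈ X, bil n x s = 0) → ∀ c : K, z = x + c • e0 n + s →
        z = x + (s + q s • e0 n) := by
      intro s hs c h4
      have h5 : z = (x + s) + c • e0 n := by rw [h4]; abel
      have h6 := hqz
      rw [h5, q_add_e0, q_add, hX.1 _ hx, hs x hx, zero_add, add_zero] at h6
      have h7 : c = q s := by
        have : q s + q s = 0 := by
          rcases two_cases (q s) with h | h <;> rw [h] <;> decide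
        calc c = q s + q s + c := by rw [this, zero_add]
          _ = q s + (q s + c) := by rw [add_assoc]
          _ = q s := by rw [h6, add_zero]
      rw [h5, h7, add_assoc]
    have hxz : ∀ s : V K n, z = x + s → s ∈ p.1 := by
      intro s hs
      have h4 : s = x + z := by
        rw [hs, ← add_assoc, add_self, zero_add]
      rw [h4]
      exact p.1.add_mem (hXp hx) hzp
    simp only [Set.mem_insert_iff, Set.mem_singleton_iff]
    rcases two_cases β with hβ | hβ <;> rcases two_cases γ with hγ | hγ
    · exfalso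
      have h4 := key 0 (fun x _ => by simp) α (by rw [hz, hβ, hγ]; simp)
      rw [q_zero, zero_smul, add_zero, add_zero] at h4
      exact hzX (h4 ▸ hx)
    · right; left
      have h4 := key b (hmemY.1 hbY) α (by rw [hz, hβ, hγ]; simp)
      exact hline (hxz _ h4) hXp
    · left
      have h4 := key a (hmemY.1 haY) α (by rw [hz, hβ, hγ]; simp)
      exact hline (hxz _ h4) hXp
    · right; right
      have h4 := key (a + b) (hmemY.1 (Y.add_mem haY hbY)) α (by
        rw [hz, hβ, hγ, one_smul, one_smul]; abel)
      exact hline (hxz _ h4) hXp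
  · simp only [Set.mem_insert_iff, Set.mem_singleton_iff]
    rintro (rfl | rfl | rfl)
    · exact le_sup_left
    · exact le_sup_left
    · exact le_sup_left

/-- the free embedding -/
noncomputable def free (n : ℕ) : Pt K n → ℙ K (Pt K n →₀ K) := fun p =>
  Projectivization.mk K (Finsupp.single p 1) (by simp)

theorem free_submodule (p : Pt K n) :
    (free n p).submodule = Submodule.span K {Finsupp.single p 1} := by
  rw [free, Projectivization.submodule_mk]

theorem nonzero_mem {W : Type*} [AddCommGroup W] [Module K W] {w v : W}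
    (h : v ∈ Submodule.span K {w}) (h0 : v ≠ 0) : v = w := by
  obtain ⟨c, rfl⟩ := Submodule.mem_span_singleton.1 h
  rcases two_cases c with rfl | rfl
  · exact absurd (zero_smul _ _) h0
  · exact one_smul _ _

theorem free_isVerEmb : IsVerEmb (free n) where
  injective := by
    intro p p' h
    have h1 : (free n p).submodule = (free n p').submodule := by rw [h]
    rw [free_submodule, free_submodule] at h1
    have h2 : (Finsupp.single p (1 : K)) ∈ Submodule.span K {Finsupp.single p' (1 : K)} := by
      rw [← h1]
      exact Submodule.mem_span_singleton_self _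
    have h3 := nonzero_mem h2 (by simp)
    exact Finsupp.single_left_injective one_ne_zero h3
  conic := by
    intro X hX
    obtain ⟨p₁, p₂, p₃, h₁₂, h₁₃, h₂₃, hl⟩ := line_three hX
    have hss : ∀ v : Pt K n →₀ K, v + v = 0 := by
      intro v
      rw [← two_smul K v, show (2 : K) = 0 by decide, zero_smul]
    set d₁ : Pt K n →₀ K := Finsupp.single p₁ 1 with hd₁
    set d₂ : Pt K n →₀ K := Finsupp.single p₂ 1 with hd₂
    set d₃ : Pt K n →₀ K := Finsupp.single p₃ 1 with hd₃
    refine ⟨![d₁, d₁ + d₂ + d₃, d₂], ?_, ?_⟩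
    · rw [Fintype.linearIndependent_iff]
      intro c hc
      simp only [Fin.sum_univ_three, Matrix.cons_val_zero, Matrix.cons_val_one,
        Matrix.cons_val] at hc
      have e1 := DFunLike.congr_fun hc p₁
      have e2 := DFunLike.congr_fun hc p₂
      have e3 := DFunLike.congr_fun hc p₃
      simp [hd₁, hd₂, hd₃, h₁₂, h₁₃, h₂₃, h₁₂.symm, h₁₃.symm, h₂₃.symm] at e1 e2 e3
      rw [e3, add_zero] at e1
      rw [e3, zero_add] at e2
      intro i
      fin_cases i
      · exact e1
      · exact e3
      · exact e2
    · ext x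
      rw [hl]
      simp only [Set.mem_image, Set.mem_insert_iff, Set.mem_singleton_iff, exists_eq_or_imp,
        exists_eq_left, Set.mem_ofPred_eq, Matrix.cons_val_zero, Matrix.cons_val_one,
        Matrix.cons_val]
      have h3 : d₁ + (d₁ + d₂ + d₃) + d₂ = d₃ := by
        calc d₁ + (d₁ + d₂ + d₃) + d₂ = (d₁ + d₁) + (d₂ + d₂) + d₃ := by abel
          _ = d₃ := by rw [hss, hss, add_zero, zero_add]
      constructor
      · rintro (rfl | rfl | rfl)
        · exact ⟨1, 0, Or.inl one_ne_zero, by rw [free_submodule]; simp [hd₁]⟩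
        · exact ⟨0, 1, Or.inr one_ne_zero, by rw [free_submodule]; simp [hd₂]⟩
        · refine ⟨1, 1, Or.inl one_ne_zero, ?_⟩
          rw [free_submodule, one_pow, mul_one, one_smul, one_smul, one_smul, h3]
      · rintro ⟨s, t, hst, hx⟩
        rcases two_cases s with rfl | rfl <;> rcases two_cases t with rfl | rfl
        · exact absurd rfl (hst.resolve_left (fun h => h rfl))
        · right; left
          apply Projectivization.submodule_injective
          rw [free_submodule, hx]
          simp [hd₂]
        · left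
          apply Projectivization.submodule_injective
          rw [free_submodule, hx]
          simp [hd₁]
        · right; right
          apply Projectivization.submodule_injective
          rw [free_submodule, hx, one_pow, mul_one, one_smul, one_smul, one_smul, h3]
  separated := by
    intro X _ p hp
    classical
    have h3 : (⨆ z ∈ line X, (free n z).submodule) ≤
        LinearMap.ker (Finsupp.lapply p : (Pt K n →₀ K) →ₗ[K] K) := by
      refine iSup₂_le fun z hz => ?_
      have hne : z ≠ p := fun h => hp (h ▸ hz)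
      rw [free_submodule, Submodule.span_singleton_le_iff_mem, LinearMap.mem_ker,
        Finsupp.lapply_apply, Finsupp.single_apply, if_neg hne]
    rw [eq_bot_iff]
    rintro v ⟨hv1, hv2⟩
    have hv1' : v ∈ (free n p).submodule := hv1
    rw [free_submodule] at hv1'
    obtain ⟨c, rfl⟩ := Submodule.mem_span_singleton.1 hv1'
    have h4 := h3 hv2
    rw [LinearMap.mem_ker, map_smul, Finsupp.lapply_apply, Finsupp.single_eq_same,
      smul_eq_mul, mul_one] at h4
    rw [h4, zero_smul]
    exact Submodule.zero_mem _
  spans := by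
    rw [eq_top_iff]
    intro v _
    induction v using Finsupp.induction_linear with
    | zero => exact Submodule.zero_mem _
    | add f g hf hg => exact Submodule.add_mem _ (hf trivial) (hg trivial)
    | single p c =>
      refine Submodule.mem_iSup_of_mem p ?_
      rw [free_submodule, Submodule.mem_span_singleton]
      exact ⟨c, by rw [Finsupp.smul_single, smul_eq_mul, mul_one]⟩

theorem free_isAbsUniversal : IsAbsUniversal.{0, v} (free n) := by
  refine ⟨free_isVerEmb, fun W' _ _ ε' _ => ?_⟩
  refine ⟨RingEquiv.refl K, Finsupp.linearCombination K (fun p => (ε' p).rep),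
    map_add _, map_smul _, ?_⟩
  intro z w hw hw0
  rw [free_submodule] at hw
  have key : Finsupp.linearCombination K (fun p => (ε' p).rep) w = (ε' z).rep := by
    rw [nonzero_mem hw hw0, Finsupp.linearCombination_single, one_smul]
  refine ⟨fun h => (ε' z).rep_nonzero (key.symm.trans h), ?_⟩
  have h2 : (ε' z).rep ∈ (ε' z).submodule := by
    rw [Projectivization.submodule_eq]
    exact Submodule.mem_span_singleton_self _
  rw [← key] at h2
  exact h2

end Pool.Agent.VeronDual.F2
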